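import Mathlib
import Pool.Agent.Helper26.AF.Goals2

/-!
Project AF (MP_af6c86_pr), packet KFO: upper bound for the number of cores.
-/

namespace Pool.Agent.Helper4.AF

open Finset
open Pool.Agent.Helper26.AF

/-- The number of connected graphs with excess `r` and degree function `d`. -/
noncomputable def Nd (s r : ℕ) (d : Fin s → ℕ) : ℕ :=
  Nat.card {Γ : SimpleGraph (Fin s) // Γ.Connected ∧ (∀ v, dg Γ v = d v) ∧ ne Γ = s + r}

open Classical in
/-- The degree function of `B` and `j`. -/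
noncomputable def dd {s : ℕ} (B : Finset (Fin s)) (j : Fin s → ℕ) (v : Fin s) : ℕ :=
  if v ∈ B then 3 + j v else 2

lemma handshake {s : ℕ} (Γ : SimpleGraph (Fin s)) : ∑ v, dg Γ v = 2 * ne Γ := by
  classical
  have h := Γ.sum_degrees_eq_twice_card_edges
  have h1 : ne Γ = #Γ.edgeFinset := by
    rw [ne, Nat.card_eq_fintype_card, SimpleGraph.card_edgeSet]
  have h2 : ∀ v, dg Γ v = Γ.degree v := fun v => by
    rw [dg, Nat.card_eq_fintype_card, SimpleGraph.card_neighborSet_eq_degree]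
  simp_rw [h2, h1]
  exact h

lemma Kc_le (s r : ℕ) (hr : 1 ≤ r) : Kc s r ≤ ∑ v ∈ Icc 1 (2 * r),
    ∑ B ∈ powersetCard v (univ : Finset (Fin s)), ∑ j ∈ piAntidiag B (2 * r - v),
      Nd s r (dd B j) := by
  classical
  have hK : Kc s r = #((univ : Finset (SimpleGraph (Fin s))).filter
      fun Γ => Γ.Connected ∧ (∀ v, 2 ≤ dg Γ v) ∧ ne Γ = s + r) := by
    rw [Kc, Nat.card_eq_fintype_card, Fintype.card_subtype]
  have hN : ∀ d, Nd s r d = #((univ : Finset (SimpleGraph (Fin s))).filter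
      fun Γ => Γ.Connected ∧ (∀ v, dg Γ v = d v) ∧ ne Γ = s + r) := by
    intro d
    rw [Nd, Nat.card_eq_fintype_card, Fintype.card_subtype]
  rw [hK]
  simp_rw [hN]
  refine le_trans (card_le_card (t := (Icc 1 (2 * r)).biUnion fun v =>
    (powersetCard v (univ : Finset (Fin s))).biUnion fun B => (piAntidiag B (2 * r - v)).biUnion
      fun j => (univ : Finset (SimpleGraph (Fin s))).filter
        fun Γ => Γ.Connected ∧ (∀ v, dg Γ v = dd B j v) ∧ ne Γ = s + r) ?_)
    (card_biUnion_le.trans (sum_le_sum fun v _ => card_biUnion_le.trans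
      (sum_le_sum fun B _ => card_biUnion_le)))
  intro Γ hΓ
  rw [mem_filter] at hΓ
  obtain ⟨_, hc, h2, he⟩ := hΓ
  set B : Finset (Fin s) := univ.filter fun v => 3 ≤ dg Γ v with hB
  have hmB : ∀ v, v ∈ B ↔ 3 ≤ dg Γ v := fun v => by rw [hB, mem_filter]; simp
  have hsum : ∑ v, dg Γ v = 2 * (s + r) := by rw [handshake, he]
  have hsplit : ∑ v ∈ B, dg Γ v + ∑ v ∈ Bᶜ, dg Γ v = 2 * (s + r) := by
    rw [sum_add_sum_compl, hsum]
  have hcompl : ∑ v ∈ Bᶜ, dg Γ v = 2 * (s - #B) := by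
    have h3 : ∀ v ∈ Bᶜ, dg Γ v = 2 := by
      intro v hv
      rw [mem_compl, hmB] at hv
      have := h2 v
      omega
    rw [sum_congr rfl h3, sum_const, card_compl, Fintype.card_fin, smul_eq_mul, mul_comm]
  have hBs : #B ≤ s := by
    have := card_le_univ B
    rwa [Fintype.card_fin] at this
  have hBsum : ∑ v ∈ B, dg Γ v = 2 * r + 2 * #B := by omega
  have hj : ∑ v ∈ B, (dg Γ v - 3) + 3 * #B = 2 * r + 2 * #B := by
    rw [← hBsum]
    have h3 : 3 * #B = ∑ v ∈ B, 3 := by rw [sum_const, smul_eq_mul, mul_comm]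
    rw [h3, ← sum_add_distrib]
    refine sum_congr rfl fun v hv => ?_
    have := (hmB v).1 hv
    omega
  have hB1 : 1 ≤ #B := by
    by_contra hlt
    have h0 : #B = 0 := by omega
    rw [card_eq_zero] at h0
    rw [h0] at hj
    simp at hj
    omega
  rw [mem_biUnion]
  refine ⟨#B, mem_Icc.2 ⟨hB1, by omega⟩, ?_⟩
  rw [mem_biUnion]
  refine ⟨B, mem_powersetCard.2 ⟨subset_univ _, rfl⟩, ?_⟩
  rw [mem_biUnion]
  refine ⟨fun v => dg Γ v - 3, ?_, ?_⟩
  · rw [mem_piAntidiag]
    refine ⟨by omega, fun i hi => ?_⟩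
    rw [hmB]
    omega
  · rw [mem_filter]
    refine ⟨mem_univ _, hc, fun v => ?_, he⟩
    unfold dd
    split_ifs with h
    · have := (hmB v).1 h
      show dg Γ v = 3 + (dg Γ v - 3)
      omega
    · rw [hmB] at h
      have := h2 v
      omega

lemma prod_step (L n : ℕ) (hL : 1 ≤ L) :
    (∏ i ∈ range n, (2 * L + 2 * i)) * (L - 1).factorial = 2 ^ n * (L + n - 1).factorial := by
  induction n with
  | zero => simp
  | succ n ih =>
    rw [prod_range_succ]
    have h1 : L + (n + 1) - 1 = (L + n - 1) + 1 := by omega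
    rw [h1, Nat.factorial_succ]
    have h2 : L + n - 1 + 1 = L + n := by omega
    rw [h2]
    calc (∏ i ∈ range n, (2 * L + 2 * i)) * (2 * L + 2 * n) * (L - 1).factorial
        = ((∏ i ∈ range n, (2 * L + 2 * i)) * (L - 1).factorial) * (2 * L + 2 * n) := by ring
      _ = _ := by rw [ih]; ring

lemma sum_inv (s : ℕ) (B : Finset (Fin s)) (n : ℕ) :
    ∑ j ∈ piAntidiag B n, (1 / ((∏ i ∈ B, (j i).factorial : ℕ) : ℝ)) =
      (#B : ℝ) ^ n / (n.factorial : ℝ) := by
  have h := sum_pow_eq_sum_piAntidiag B (fun _ => (1 : ℝ)) n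
  have h1 : (∑ _i ∈ B, (1 : ℝ)) = #B := by simp
  rw [h1] at h
  rw [h, sum_div]
  refine sum_congr rfl fun j hj => ?_
  rw [mem_piAntidiag] at hj
  have h2 := Nat.multinomial_spec B j
  have h3 : ∑ i ∈ B, j i = n := hj.1
  rw [h3] at h2
  have h4 : (n.factorial : ℝ) = ((∏ i ∈ B, (j i).factorial : ℕ) : ℝ) * (Nat.multinomial B j : ℝ) := by
    exact_mod_cast h2.symm
  have h5 : ((∏ i ∈ B, (j i).factorial : ℕ) : ℝ) ≠ 0 := by
    have : (∏ i ∈ B, (j i).factorial : ℕ) ≠ 0 :=
      prod_ne_zero_iff.2 fun i _ => Nat.factorial_ne_zero _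
    exact_mod_cast this
  have h6 : (n.factorial : ℝ) ≠ 0 := by exact_mod_cast Nat.factorial_ne_zero n
  have h7 : ∏ i ∈ B, (1 : ℝ) ^ j i = 1 := by simp
  rw [h7, mul_one, div_eq_div_iff h5 h6, one_mul, h4]
  ring

lemma six_le (j : ℕ) : 6 * j.factorial ≤ (3 + j).factorial := by
  have h : (3 + j).factorial = (j + 3) * ((j + 2) * ((j + 1) * j.factorial)) := by
    have : 3 + j = j + 1 + 1 + 1 := by ring
    rw [this, Nat.factorial_succ, Nat.factorial_succ, Nat.factorial_succ]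
  rw [h]
  have h1 : 6 ≤ (j + 3) * ((j + 2) * (j + 1)) := by
    calc 6 = 3 * (2 * 1) := rfl
      _ ≤ (j + 3) * ((j + 2) * (j + 1)) := by gcongr <;> omega
  calc 6 * j.factorial ≤ ((j + 3) * ((j + 2) * (j + 1))) * j.factorial :=
        Nat.mul_le_mul_right _ h1
    _ = _ := by ring

lemma term_le (hNPC : StmtNPC) (hPAU : StmtPAU) (s r : ℕ) (hr : 1 ≤ r) (B : Finset (Fin s))
    (j : Fin s → ℕ) (hB : #B ≤ 2 * r) (hj : j ∈ piAntidiag B (2 * r - #B)) :
    (Nd s r (dd B j) : ℝ) ≤ (Nat.doubleFactorial (2 * #B + 2 * r - 1) : ℝ) *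
      (((s + r - 1).factorial : ℝ) / ((#B + r - 1).factorial : ℝ)) * (1 / 6 : ℝ) ^ #B *
      (1 / ((∏ i ∈ B, (j i).factorial : ℕ) : ℝ)) := by
  classical
  rw [mem_piAntidiag] at hj
  have h2 : ∀ v, 2 ≤ dd B j v := by
    intro v
    unfold dd
    split_ifs <;> omega
  have hiff : ∀ v, dd B j v = 2 ↔ v ∉ B := by
    intro v
    unfold dd
    split_ifs with h
    · constructor
      · intro h'; omega
      · intro h'; exact absurd h h'
    · simp [h]
  have hBs : #B ≤ s := by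
    have := card_le_univ B
    rwa [Fintype.card_fin] at this
  have hP := hPAU s r (dd B j) hr h2
  have hX : Fintype.card (Σ v : {v : Fin s // dd B j v ≠ 2}, Fin (dd B j v.1)) =
      2 * (#B + r) := by
    rw [Fintype.card_sigma]
    simp only [Fintype.card_fin]
    rw [← Finset.sum_subtype (F := inferInstance) B (p := fun v => dd B j v ≠ 2)
      (fun v => by rw [Ne, hiff, not_not]) (dd B j)]
    have h3 : ∀ v ∈ B, dd B j v = 3 + j v := by
      intro v hv
      unfold dd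
      rw [if_pos hv]
    rw [sum_congr rfl h3, sum_add_distrib, sum_const, smul_eq_mul]
    have h4 : ∑ i ∈ B, j i = 2 * r - #B := hj.1
    rw [h4]
    omega
  have hW : Fintype.card {v : Fin s // dd B j v = 2} = s - #B := by
    rw [Fintype.card_subtype]
    have h3 : (univ.filter fun v => dd B j v = 2) = Bᶜ := by
      ext v
      rw [mem_filter, mem_compl, hiff]
      simp
    rw [h3, card_compl, Fintype.card_fin]
  rw [hNPC _ _ (#B + r) hX, hW] at hP
  have hprod : ∏ v, (dd B j v).factorial = 2 ^ (s - #B) * ∏ i ∈ B, (3 + j i).factorial := by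
    rw [← prod_mul_prod_compl B, mul_comm]
    congr 1
    · have h3 : ∀ v ∈ Bᶜ, (dd B j v).factorial = 2 := by
        intro v hv
        rw [mem_compl] at hv
        rw [(hiff v).2 hv]
        rfl
      rw [prod_congr rfl h3, prod_const, card_compl, Fintype.card_fin]
    · refine prod_congr rfl fun v hv => ?_
      unfold dd
      rw [if_pos hv]
  have hps := prod_step (#B + r) (s - #B) (by omega)
  have h5 : #B + r + (s - #B) - 1 = s + r - 1 := by omega
  rw [h5] at hps
  set P : ℕ := ∏ i ∈ range (s - #B), (2 * (#B + r) + 2 * i) with hPdef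
  have h6 : 2 * (#B + r) - 1 = 2 * #B + 2 * r - 1 := by omega
  rw [h6] at hP
  rw [show Nat.card {Γ : SimpleGraph (Fin s) // Γ.Connected ∧ (∀ v, dg Γ v = dd B j v) ∧
    ne Γ = s + r} = Nd s r (dd B j) from rfl, hprod] at hP
  -- combinatorial inequality in natural numbers
  have h7 : 6 ^ #B * ∏ i ∈ B, (j i).factorial ≤ ∏ i ∈ B, (3 + j i).factorial := by
    rw [← prod_const, ← prod_mul_distrib]
    exact prod_le_prod' fun i _ => six_le (j i)
  have h8 : Nd s r (dd B j) * (6 ^ #B * ∏ i ∈ B, (j i).factorial) * (#B + r - 1).factorial ≤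
      Nat.doubleFactorial (2 * #B + 2 * r - 1) * (s + r - 1).factorial := by
    have h9 : 0 < 2 ^ (s - #B) := by positivity
    refine Nat.le_of_mul_le_mul_left ?_ h9
    calc 2 ^ (s - #B) * (Nd s r (dd B j) * (6 ^ #B * ∏ i ∈ B, (j i).factorial) *
          (#B + r - 1).factorial)
        ≤ 2 ^ (s - #B) * (Nd s r (dd B j) * (∏ i ∈ B, (3 + j i).factorial) *
          (#B + r - 1).factorial) := by gcongr
      _ = (Nd s r (dd B j) * (2 ^ (s - #B) * ∏ i ∈ B, (3 + j i).factorial)) *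
          (#B + r - 1).factorial := by ring
      _ ≤ (Nat.doubleFactorial (2 * #B + 2 * r - 1) * P) * (#B + r - 1).factorial := by gcongr
      _ = Nat.doubleFactorial (2 * #B + 2 * r - 1) * (P * (#B + r - 1).factorial) := by ring
      _ = _ := by rw [hps]; ring
  have h9 : (Nd s r (dd B j) : ℝ) * ((6 : ℝ) ^ #B * ((∏ i ∈ B, (j i).factorial : ℕ) : ℝ)) *
      ((#B + r - 1).factorial : ℝ) ≤
      (Nat.doubleFactorial (2 * #B + 2 * r - 1) : ℝ) * ((s + r - 1).factorial : ℝ) := by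
    exact_mod_cast h8
  have hq : (0 : ℝ) < ((∏ i ∈ B, (j i).factorial : ℕ) : ℝ) := by
    have : 0 < (∏ i ∈ B, (j i).factorial : ℕ) := prod_pos fun i _ => Nat.factorial_pos _
    exact_mod_cast this
  have hf : (0 : ℝ) < ((#B + r - 1).factorial : ℝ) := by
    exact_mod_cast Nat.factorial_pos _
  have h10 : (Nat.doubleFactorial (2 * #B + 2 * r - 1) : ℝ) *
      (((s + r - 1).factorial : ℝ) / ((#B + r - 1).factorial : ℝ)) * (1 / 6 : ℝ) ^ #B *
      (1 / ((∏ i ∈ B, (j i).factorial : ℕ) : ℝ)) =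
      ((Nat.doubleFactorial (2 * #B + 2 * r - 1) : ℝ) * ((s + r - 1).factorial : ℝ)) /
        ((6 : ℝ) ^ #B * ((∏ i ∈ B, (j i).factorial : ℕ) : ℝ) * ((#B + r - 1).factorial : ℝ)) := by
    rw [one_div_pow]
    field_simp
  rw [h10, le_div_iff₀ (by positivity), ← mul_assoc, ← mul_assoc]
  rw [← mul_assoc] at h9
  exact h9

theorem goalKFO (hNPC : Pool.Agent.Helper26.AF.StmtNPC) (hPAU : Pool.Agent.Helper26.AF.StmtPAU) :
    Pool.Agent.Helper26.AF.StmtKFO := by
  classical
  intro s r hr _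
  have h1 : (Kc s r : ℝ) ≤ ∑ v ∈ Icc 1 (2 * r),
      ∑ B ∈ powersetCard v (univ : Finset (Fin s)), ∑ j ∈ piAntidiag B (2 * r - v),
        (Nd s r (dd B j) : ℝ) := by
    exact_mod_cast Kc_le s r hr
  refine h1.trans (sum_le_sum fun v hv => ?_)
  rw [mem_Icc] at hv
  have h2 : ∀ B ∈ powersetCard v (univ : Finset (Fin s)), ∑ j ∈ piAntidiag B (2 * r - v),
      (Nd s r (dd B j) : ℝ) ≤ (Nat.doubleFactorial (2 * v + 2 * r - 1) : ℝ) *
      (((s + r - 1).factorial : ℝ) / ((v + r - 1).factorial : ℝ)) * (1 / 6 : ℝ) ^ v *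
      ((v : ℝ) ^ (2 * r - v) / ((2 * r - v).factorial : ℝ)) := by
    intro B hB
    rw [mem_powersetCard] at hB
    obtain ⟨_, rfl⟩ := hB
    refine (sum_le_sum fun j hj => term_le hNPC hPAU s r hr B j hv.2 hj).trans ?_
    rw [← mul_sum, sum_inv]
  refine (sum_le_sum h2).trans ?_
  rw [sum_const, card_powersetCard, card_univ, Fintype.card_fin, nsmul_eq_mul]
  apply le_of_eq
  ring

end Pool.Agent.Helper4.AF
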